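import Pool.Agent.H37.CPX.Targets

/-!
# cpx board, row LOW: the low part of a spread rectangle
-/

set_option autoImplicit false

namespace Pool.Agent.H60.CPX

open Finset Pool.Agent.H37.CPX

lemma flat_mono {N : ℕ} {Q : Type} {T : Finset (Fin N)} {A A' : Finset (Fin N → Q)}
    (h : A' ⊆ A) (hA : Flat T A) : Flat T A' :=
  fun x hx x' hx' i hi => hA x (h hx) x' (h hx') i hi

lemma cyl_mono {N : ℕ} {Q : Type} {U : Finset (Fin N)} {u : U → Q} {A A' : Finset (Fin N → Q)}
    (h : A' ⊆ A) : cyl U u A' ⊆ cyl U u A := by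
  classical
  unfold cyl
  exact filter_subset_filter _ h

lemma spr_mono {N : ℕ} {Q : Type} {E c : ℝ} {T : Finset (Fin N)} {A A' : Finset (Fin N → Q)}
    (hE : 0 ≤ E) (h : A' ⊆ A) (hA : Spr E 1 T A) (hc : (A.card : ℝ) ≤ c * A'.card) :
    Spr E c T A' := by
  intro U hU hUT u
  have h1 := hA U hU hUT u
  have h2 : ((cyl U u A').card : ℝ) ≤ (cyl U u A).card := by
    exact_mod_cast card_le_card (cyl_mono h)
  have h3 : ((cyl U u A').card : ℝ) * E ^ U.card ≤ ((cyl U u A).card : ℝ) * E ^ U.card :=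
    mul_le_mul_of_nonneg_right h2 (pow_nonneg hE _)
  rw [one_mul] at h1
  exact (h3.trans h1).trans hc

lemma sgn_cases (a : ZMod 2) : sgn a = 1 ∨ sgn a = -1 := by
  unfold sgn
  split_ifs
  · exact Or.inl rfl
  · exact Or.inr rfl

theorem pf_LOW (hN : S_NEG) : S_LOW := by
  intro N m k w0 P z rh s u w Xs Ys st A X' B Y' hP hOk hT0 hAl hA hB hfA hfB hsA hsB hX' hY'
    hcA hcB hTr hrh F hF G hG
  have hNbT : s.Nb st.J ⊆ st.T s := subset_union_right
  by_cases hcon : ∀ x ∈ X', ∀ y ∈ Y', ∀ j ∈ st.J, s.v j (pt x y) = 1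
  · exfalso
    apply hAl
    refine ⟨st.T s, st.J, X', Y', hX'.trans hA, hY'.trans hB, hTr, ?_, hrh⟩
    exact
      { flX := flat_mono hX' hfA
        flY := flat_mono hY' hfB
        nb := hNbT
        clo := hOk.h4 hT0
        card := hOk.h1.trans hT0
        con := hcon
        spX := spr_mono (by positivity) hX' hsA hcA
        spY := spr_mono (by positivity) hY' hsB hcB }
  · push Not at hcon
    obtain ⟨x0, hx0, y0, hy0, j0, hj0, hv⟩ := hcon
    have hv' : s.v j0 (pt x0 y0) = -1 := (sgn_cases _).resolve_left hv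
    have hS : s.S j0 ⊆ st.T s := (subset_biUnion_of_mem s.S hj0).trans hNbT
    have key : ∀ x ∈ F, ∀ y ∈ G, s.v j0 (pt x y) = -1 := by
      intro x hx y hy
      rw [← hv']
      unfold Sy.v
      congr 2
      refine sum_congr rfl fun i hi => ?_
      unfold pt
      rw [hfA x (hF hx) x0 (hX' hx0) i (hS hi), hfB y (hG hy) y0 (hY' hy0) i (hS hi)]
    exact hN N m k w0 P s F G j0 hP key

end Pool.Agent.H60.CPX
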